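import Pool.Agent.N299.PX.Stm

/-!
Project PX (helper299): purely infinite algebras with the global Glimm property are weakly purely infinite
with `n = 1` (helper97).
-/

set_option autoImplicit false

open Filter Topology

noncomputable section

namespace Pool.Agent.N97.PX.PIW

open Pool.Agent.N299.ND.Pub Pool.Agent.N299.PX Pool.Agent.N299.PX.Pub

variable {A : Type} [NonUnitalCStarAlgebra A]

lemma bound {r t : ℝ} (hr : 0 < r) :
    ‖t - t * (t / (t ^ 2 + r ^ 2)) * t - t * (t / (t ^ 2 + r ^ 2)) * t +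
      t * (t / (t ^ 2 + r ^ 2)) * t * (t / (t ^ 2 + r ^ 2)) * t‖ ≤ r := by
  have h0 : 0 < t ^ 2 + r ^ 2 := by positivity
  have h1 : t - t * (t / (t ^ 2 + r ^ 2)) * t - t * (t / (t ^ 2 + r ^ 2)) * t +
      t * (t / (t ^ 2 + r ^ 2)) * t * (t / (t ^ 2 + r ^ 2)) * t = t * (r ^ 2 / (t ^ 2 + r ^ 2)) ^ 2 := by
    field_simp
    ring
  rw [h1, norm_mul, Real.norm_eq_abs, Real.norm_of_nonneg (by positivity), div_pow, mul_div_assoc']
  rw [div_le_iff₀ (by positivity)]
  have h2 : 2 * (|t| * r) ≤ t ^ 2 + r ^ 2 := by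
    have := two_mul_le_add_sq |t| r
    rw [sq_abs] at this
    linarith
  have h3 : 0 ≤ |t| := abs_nonneg t
  have h4 : |t| * r * r ^ 2 ≤ (t ^ 2 + r ^ 2) * (t ^ 2 + r ^ 2) := by
    apply mul_le_mul
    · nlinarith [mul_nonneg h3 hr.le]
    · nlinarith [sq_nonneg t]
    · positivity
    · positivity
  nlinarith

lemma near_aux (x : A) {r : ℝ} (hr : 0 < r) : ∃ w : A, ‖x - w * (star x * x)‖ ^ 2 ≤ r := by
  set p := star x * x with hp
  have hsa : IsSelfAdjoint p := IsSelfAdjoint.star_mul_self x
  set g : ℝ → ℝ := fun t => t / (t ^ 2 + r ^ 2) with hg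
  have hgc : Continuous g := by
    refine continuous_id.div (by fun_prop) fun t => ?_
    positivity
  have hg0 : g 0 = 0 := by simp [hg]
  set G := cfcₙ g p with hG
  have hGs : star G = G := IsSelfAdjoint.cfcₙ (f := g) (a := p)
  have hid : cfcₙ (fun t : ℝ => t) p = p := cfcₙ_id' ℝ p
  have h1 : p * G = cfcₙ (fun t => t * g t) p := by
    rw [cfcₙ_mul (fun t : ℝ => t) g p (by fun_prop) rfl hgc.continuousOn hg0, hid]
  have h2 : p * G * p = cfcₙ (fun t => t * g t * t) p := by
    rw [cfcₙ_mul (fun t : ℝ => t * g t) (fun t => t) p (by fun_prop) (by simp) (by fun_prop) rfl, hid, h1]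
  have h3 : p * G * p * G = cfcₙ (fun t => t * g t * t * g t) p := by
    rw [cfcₙ_mul (fun t : ℝ => t * g t * t) g p (by fun_prop) (by simp) hgc.continuousOn hg0, h2]
  have h4 : p * G * p * G * p = cfcₙ (fun t => t * g t * t * g t * t) p := by
    rw [cfcₙ_mul (fun t : ℝ => t * g t * t * g t) (fun t => t) p (by fun_prop) (by simp) (by fun_prop) rfl, hid, h3]
  have h5 : p - p * G * p - p * G * p + p * G * p * G * p =
      cfcₙ (fun t => t - t * g t * t - t * g t * t + t * g t * t * g t * t) p := by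
    rw [cfcₙ_add (fun t : ℝ => t - t * g t * t - t * g t * t) (fun t => t * g t * t * g t * t) p
        (by fun_prop) (by simp) (by fun_prop) (by simp),
      cfcₙ_sub (fun t : ℝ => t - t * g t * t) (fun t => t * g t * t) p
        (by fun_prop) (by simp) (by fun_prop) (by simp),
      cfcₙ_sub (fun t : ℝ => t) (fun t => t * g t * t) p
        (by fun_prop) (by simp) (by fun_prop) (by simp), hid, h4, h2]
  refine ⟨x * G, ?_⟩
  have h6 : star (x - x * G * p) * (x - x * G * p) = p - p * G * p - p * G * p + p * G * p * G * p := by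
    have e1 : star (x - x * G * p) = star x - p * G * star x := by
      rw [star_sub, star_mul (x * G) p, star_mul x G, hGs, hsa.star_eq, mul_assoc p G (star x)]
    rw [e1, sub_mul, mul_sub, mul_sub]
    have e2 : star x * (x * G * p) = p * G * p := by rw [hp]; simp only [mul_assoc]
    have e3 : p * G * star x * x = p * G * p := by rw [mul_assoc, ← hp]
    have e4 : p * G * star x * (x * G * p) = p * G * p * G * p := by
      have : p * G * star x * (x * G * p) = p * G * (star x * x) * G * p := by simp only [mul_assoc]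
      rw [this]
    rw [e2, e3, e4, ← hp]
    abel
  rw [sq, ← CStarRing.norm_star_mul_self, h6, h5]
  exact norm_cfcₙ_le fun t _ => bound hr

lemma near (x : A) : x ∈ closure (Set.range fun w : A => w * (star x * x)) := by
  rw [Metric.mem_closure_iff]
  intro ε hε
  obtain ⟨w, hw⟩ := near_aux x (r := ε ^ 2 / 2) (by positivity)
  refine ⟨_, ⟨w, rfl⟩, ?_⟩
  rw [dist_eq_norm]
  have h1 : ‖x - w * (star x * x)‖ ^ 2 < ε ^ 2 := by nlinarith [sq_pos_of_pos hε]
  exact lt_of_pow_lt_pow_left₀ 2 hε.le h1

lemma near' (x : A) : x ∈ closure (Set.range fun w : A => (x * star x) * w) := by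
  have h1 := near (star x)
  have h2 := map_mem_closure continuous_star h1
    (t := Set.range fun w : A => (x * star x) * w) (by
      rintro _ ⟨w, rfl⟩
      refine ⟨star w, ?_⟩
      simp only [star_mul, star_star])
  rwa [star_star] at h2

lemma idl {x p a : A}
    (h : ∀ u v : A, u * x * v ∈ closure ((Submodule.span ℂ {c : A | ∃ x z : A, c = x * p * z} : Set A)))
    (ha : a ∈ idealGen x) : a ∈ closure ((Submodule.span ℂ {c : A | ∃ x z : A, c = x * p * z} : Set A)) := by
  refine closure_minimal ?_ isClosed_closure ha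
  rintro _ ⟨k, u, v, rfl⟩
  rw [← Submodule.topologicalClosure_coe]
  refine Submodule.sum_mem _ fun i _ => ?_
  have := h (u i) (v i)
  rw [← Submodule.topologicalClosure_coe] at this
  exact this

lemma idl_p {x a : A} (ha : a ∈ idealGen x) :
    a ∈ closure ((Submodule.span ℂ {c : A | ∃ y z : A, c = y * (star x * x) * z} : Set A)) := by
  refine idl (fun u v => ?_) ha
  refine map_mem_closure (f := fun z : A => u * z * v) (by fun_prop) (near x) ?_
  rintro _ ⟨w, rfl⟩
  exact Submodule.subset_span ⟨u * w, v, by simp only [mul_assoc]⟩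

lemma idl_q {x a : A} (ha : a ∈ idealGen x) :
    a ∈ closure ((Submodule.span ℂ {c : A | ∃ y z : A, c = y * (x * star x) * z} : Set A)) := by
  refine idl (fun u v => ?_) ha
  refine map_mem_closure (f := fun z : A => u * z * v) (by fun_prop) (near' x) ?_
  rintro _ ⟨w, rfl⟩
  exact Submodule.subset_span ⟨u, w * v, by simp only [mul_assoc]⟩

lemma conv_lem {a h : A} (hh : h * h = a) (hsa : star h = h) (x0 x1 s0 s1 : A) (c0 c1 : ℕ → A)
    (l0 : Tendsto (fun k => a * c0 k) atTop (𝓝 x0)) (l1 : Tendsto (fun k => a * c1 k) atTop (𝓝 x1)) :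
    Tendsto (fun k => star (h * c0 k * s0) * a * (h * c1 k * s1)) atTop
      (𝓝 (star (x0 * s0) * (x1 * s1))) := by
  have h1 : ∀ k, star (h * c0 k * s0) * a * (h * c1 k * s1) = star (a * c0 k * s0) * (a * c1 k * s1) := by
    intro k
    rw [← hh]
    simp only [star_mul, hsa, mul_assoc]
  simp only [h1]
  exact (l0.mul_const s0).star.mul (l1.mul_const s1)

lemma claim (hC : Compar A) (hG : GlobalGlimm A) (a : A) (ha : ∃ y, a = star y * y) {ε : ℝ} (hε : 0 < ε) :
    ∃ X : Fin 2 → A, ∀ i j, ‖star (X i) * a * X j - (if i = j then a else 0)‖ ≤ 3 * ε := by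
  let _ : PartialOrder A := CStarAlgebra.spectralOrder A
  let _ : StarOrderedRing A := CStarAlgebra.spectralOrderedRing A
  obtain ⟨x, hx1, hx2, hx3⟩ := hG a ha ε hε
  have ha0 : 0 ≤ a := by
    obtain ⟨y, rfl⟩ := ha
    exact star_mul_self_nonneg y
  have hasa : IsSelfAdjoint a := ha0.isSelfAdjoint
  set ae := cfcₙ (fun t : ℝ => max (t - ε) 0) a with hae
  have hcont : Continuous fun t : ℝ => max (t - ε) 0 := by fun_prop
  have he0 : max ((0 : ℝ) - ε) 0 = 0 := max_eq_right (by linarith)
  have hae0 : 0 ≤ ae := cfcₙ_nonneg fun t _ => le_max_right _ _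
  have haes : ∃ y : A, ae = star y * y := CStarAlgebra.nonneg_iff_eq_star_mul_self.1 hae0
  have hnorm : ‖ae - a‖ ≤ ε := by
    have h1 : ae - a = cfcₙ (fun t : ℝ => max (t - ε) 0 - t) a := by
      rw [cfcₙ_sub (fun t : ℝ => max (t - ε) 0) (fun t => t) a hcont.continuousOn he0 (by fun_prop) rfl,
        cfcₙ_id' ℝ a]
    rw [h1]
    refine norm_cfcₙ_le fun t ht => ?_
    have h2 : 0 ≤ t := quasispectrum_nonneg_of_nonneg a ha0 t ht
    rw [Real.norm_eq_abs, abs_le]
    constructor
    · have := le_max_left (t - ε) 0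
      linarith
    · have : max (t - ε) 0 ≤ t + ε := max_le (by linarith) (by linarith)
      linarith
  obtain ⟨s, hs⟩ := hC ae (star x * x) haes ⟨x, rfl⟩ (idl_p hx3)
  obtain ⟨r, hr⟩ := hC ae (x * star x) haes ⟨star x, by rw [star_star]⟩ (idl_q hx3)
  obtain ⟨n1, h1⟩ := Metric.tendsto_atTop.1 hs ε hε
  obtain ⟨n2, h2⟩ := Metric.tendsto_atTop.1 hr ε hε
  have k1 := h1 n1 le_rfl
  have k2 := h2 n2 le_rfl
  rw [dist_eq_norm] at k1 k2
  obtain ⟨y, hy1, hy2⟩ := mem_closure_iff_seq_limit.1 hx1
  choose b hb using hy1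
  obtain ⟨h, hh0, hhh⟩ : ∃ h : A, 0 ≤ h ∧ h * h = a :=
    ⟨CFC.sqrt a, CFC.sqrt_nonneg a, CFC.sqrt_mul_sqrt_self a ha0⟩
  have hhs : star h = h := hh0.isSelfAdjoint
  set s' : Fin 2 → A := ![s n1, r n2] with hs'
  set xx : Fin 2 → A := ![x, star x] with hxx
  set c : Fin 2 → ℕ → A := ![fun k => b k * a, fun k => star (b k) * a] with hc
  have l0 : Tendsto (fun k => a * c 0 k) atTop (𝓝 (xx 0)) := by
    refine hy2.congr fun k => ?_
    show y k = a * (b k * a)
    rw [hb k, mul_assoc]
  have l1 : Tendsto (fun k => a * c 1 k) atTop (𝓝 (xx 1)) := by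
    refine hy2.star.congr fun k => ?_
    show star (y k) = a * (star (b k) * a)
    rw [hb k, star_mul, star_mul, hasa.star_eq]
  have ll : ∀ i, Tendsto (fun k => a * c i k) atTop (𝓝 (xx i)) := by
    intro i
    fin_cases i
    · exact l0
    · exact l1
  have lim : ∀ i j, Tendsto (fun k => star (h * c i k * s' i) * a * (h * c j k * s' j)) atTop
      (𝓝 (star (xx i * s' i) * (xx j * s' j))) := fun i j => conv_lem hhh hhs _ _ _ _ _ _ (ll i) (ll j)
  have hv : ∀ i j, ‖star (xx i * s' i) * (xx j * s' j) - (if i = j then ae else 0)‖ ≤ ε := by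
    have hxs : star x * star x = 0 := by rw [← star_mul, hx2, star_zero]
    intro i j
    fin_cases i <;> fin_cases j
    · show ‖star (x * s n1) * (x * s n1) - (if (0 : Fin 2) = 0 then ae else 0)‖ ≤ ε
      rw [if_pos rfl]
      have : star (x * s n1) * (x * s n1) = star (s n1) * (star x * x) * s n1 := by
        simp only [star_mul, mul_assoc]
      rw [this]
      exact k1.le
    · show ‖star (x * s n1) * (star x * r n2) - (if (0 : Fin 2) = 1 then ae else 0)‖ ≤ ε
      rw [if_neg (by decide), sub_zero]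
      have : star (x * s n1) * (star x * r n2) = star (s n1) * (star x * star x) * r n2 := by
        simp only [star_mul, mul_assoc]
      rw [this, hxs, mul_zero, zero_mul, norm_zero]
      exact hε.le
    · show ‖star (star x * r n2) * (x * s n1) - (if (1 : Fin 2) = 0 then ae else 0)‖ ≤ ε
      rw [if_neg (by decide), sub_zero]
      have : star (star x * r n2) * (x * s n1) = star (r n2) * (x * x) * s n1 := by
        simp only [star_mul, star_star, mul_assoc]
      rw [this, hx2, mul_zero, zero_mul, norm_zero]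
      exact hε.le
    · show ‖star (star x * r n2) * (star x * r n2) - (if (1 : Fin 2) = 1 then ae else 0)‖ ≤ ε
      rw [if_pos rfl]
      have : star (star x * r n2) * (star x * r n2) = star (r n2) * (x * star x) * r n2 := by
        simp only [star_mul, star_star, mul_assoc]
      rw [this]
      exact k2.le
  have hev : ∀ᶠ k in atTop, ∀ i j, ‖star (h * c i k * s' i) * a * (h * c j k * s' j) -
      star (xx i * s' i) * (xx j * s' j)‖ < ε := by
    refine eventually_all.2 fun i => eventually_all.2 fun j => ?_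
    have := (Metric.tendsto_atTop'.1 (lim i j)) ε hε
    obtain ⟨N, hN⟩ := this
    filter_upwards [eventually_gt_atTop N] with k hk
    have := hN k hk
    rwa [dist_eq_norm] at this
  obtain ⟨k, hk⟩ := hev.exists
  refine ⟨fun i => h * c i k * s' i, fun i j => ?_⟩
  have e1 := (hk i j).le
  have e2 := hv i j
  have e3 : ‖(if i = j then ae else 0) - (if i = j then a else 0)‖ ≤ ε := by
    split_ifs
    · exact hnorm
    · rw [sub_zero, norm_zero]
      exact hε.le
  have e4 : star (h * c i k * s' i) * a * (h * c j k * s' j) - (if i = j then a else 0) =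
      (star (h * c i k * s' i) * a * (h * c j k * s' j) - star (xx i * s' i) * (xx j * s' j)) +
      (star (xx i * s' i) * (xx j * s' j) - (if i = j then ae else 0)) +
      ((if i = j then ae else 0) - (if i = j then a else 0)) := by abel
  show ‖star (h * c i k * s' i) * a * (h * c j k * s' j) - (if i = j then a else 0)‖ ≤ 3 * ε
  rw [e4]
  refine (norm_add₃_le).trans ?_
  linarith

theorem t_PIW : S_PIW := by
  intro A _ hP hG
  refine ⟨1, le_rfl, fun a ha _ => ?_⟩
  have h1 : ∀ k : ℕ, ∃ X : Fin 2 → A, ∀ i j, ‖star (X i) * a * X j - (if i = j then a else 0)‖ ≤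
      3 * (1 / ((k : ℝ) + 1)) := fun k => claim hP.2 hG a ha (by positivity)
  choose X hX using h1
  have hlim : ∀ i j, Tendsto (fun k => star (X k i) * a * X k j) atTop (𝓝 (if i = j then a else 0)) := by
    intro i j
    rw [tendsto_iff_norm_sub_tendsto_zero]
    refine squeeze_zero (fun _ => norm_nonneg _) (fun k => hX k i j) ?_
    have := (tendsto_one_div_add_atTop_nhds_zero_nat (𝕜 := ℝ)).const_mul 3
    rwa [mul_zero] at this
  refine ⟨fun k => Matrix.of fun p q => if p.1 = 0 then X k q.1 else 0, ?_⟩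
  refine tendsto_pi_nhds.2 fun q => tendsto_pi_nhds.2 fun q' => ?_
  have h2 : ∀ k, (Matrix.conjTranspose (Matrix.of fun p q : Fin 2 × Fin 1 => if p.1 = 0 then X k q.1 else 0) *
      Matrix.diagonal (fun p : Fin 2 × Fin 1 => if p.1 = 0 then a else 0) *
      (Matrix.of fun p q : Fin 2 × Fin 1 => if p.1 = 0 then X k q.1 else 0)) q q' =
      star (X k q.1) * a * X k q'.1 := by
    intro k
    rw [Matrix.mul_apply]
    simp only [Matrix.mul_diagonal, Matrix.conjTranspose_apply, Matrix.of_apply, Fintype.sum_prod_type,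
      Fin.sum_univ_two, Finset.univ_unique, Finset.sum_singleton]
    simp
  simp only [h2]
  have h3 : (Matrix.diagonal (fun _ : Fin 2 × Fin 1 => a)) q q' = if q.1 = q'.1 then a else 0 := by
    rw [Matrix.diagonal_apply]
    congr 1
    rw [Prod.ext_iff]
    simp only [Subsingleton.elim q.2 q'.2, and_true]
  rw [h3]
  exact hlim q.1 q'.1

end Pool.Agent.N97.PX.PIW
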